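import Mathlib

set_option autoImplicit false

namespace Pool.Agent.H.MP_cc69c8_lc

open Set Filter Cardinal

def Dom (D : Set (ℕ → ℕ)) : Prop := ∀ f : ℕ → ℕ, ∃ g ∈ D, ∀ᶠ n in atTop, f n ≤ g n

theorem dom_inf {D : Set (ℕ → ℕ)} (h : Dom D) : D.Infinite := by
  intro hf
  obtain ⟨g, hg, he⟩ := h fun n => (∑ g ∈ hf.toFinset, g n) + 1
  obtain ⟨n, hn⟩ := he.exists
  have := Finset.single_le_sum (f := fun g : ℕ → ℕ => g n) (fun _ _ => Nat.zero_le _)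
    (hf.mem_toFinset.2 hg)
  omega

theorem ex_dom : ∃ E : Set (ℕ → ℕ), (∀ f : ℕ → ℕ, ∃ g ∈ E, ∀ n, f n ≤ g n) ∧
    ∀ D, Dom D → #E ≤ #D := by
  have hne : ({c | ∃ D, Dom D ∧ #D = c} : Set Cardinal).Nonempty :=
    ⟨_, univ, fun f => ⟨f, trivial, Eventually.of_forall fun _ => le_rfl⟩, rfl⟩
  obtain ⟨D, hD, hc⟩ := csInf_mem hne
  refine ⟨range fun p : D × ℕ => fun n => p.1.1 n + p.2, fun f => ?_, fun D' hD' => ?_⟩
  · obtain ⟨g, hg, he⟩ := hD f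
    obtain ⟨N, hN⟩ := eventually_atTop.1 he
    refine ⟨_, ⟨(⟨g, hg⟩, ∑ i ∈ Finset.range N, f i), rfl⟩, fun n => ?_⟩
    by_cases hn : n < N
    · have := Finset.single_le_sum (f := f) (fun _ _ => Nat.zero_le _) (Finset.mem_range.2 hn)
      show f n ≤ g n + _
      omega
    · have := hN n (not_lt.1 hn)
      show f n ≤ g n + _
      omega
  · have := (dom_inf hD).to_subtype
    refine mk_range_le.trans ?_
    rw [mk_prod, lift_id, lift_id, mk_nat, mul_eq_left (aleph0_le_mk _) (aleph0_le_mk _)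
      aleph0_ne_zero, hc]
    exact csInf_le' ⟨D', hD', rfl⟩

def col (j : ℕ) : Set ℕ := range (Nat.pair j)

def yy (x : ℕ → ℕ) (k : ℕ) : ℕ := Nat.pair (x k) (Encodable.encode ((List.range k).map x))

def gr (x : ℕ → ℕ) : Set ℕ := range fun k => Nat.pair k (yy x k)

theorem col_inf (j : ℕ) : (col j).Infinite :=
  infinite_range_of_injective fun _ _ h => (Nat.pair_eq_pair.1 h).2

theorem gr_inf (x : ℕ → ℕ) : (gr x).Infinite :=
  infinite_range_of_injective fun _ _ h => (Nat.pair_eq_pair.1 h).1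

theorem col_col {i j : ℕ} (h : col i ≠ col j) : (col i ∩ col j).Finite := by
  refine finite_empty.subset ?_
  rintro _ ⟨⟨a, rfl⟩, b, hb⟩
  exact h (by rw [(Nat.pair_eq_pair.1 hb).1])

theorem col_gr (i : ℕ) (x : ℕ → ℕ) : (col i ∩ gr x).Finite := by
  refine (finite_singleton (Nat.pair i (yy x i))).subset ?_
  rintro _ ⟨⟨a, rfl⟩, b, hb⟩
  obtain ⟨rfl, rfl⟩ := Nat.pair_eq_pair.1 hb
  rfl

theorem gr_gr {x z : ℕ → ℕ} (h : x ≠ z) : (gr x ∩ gr z).Finite := by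
  obtain ⟨j, hj⟩ := Function.ne_iff.1 h
  refine ((finite_Iic j).image fun k => Nat.pair k (yy x k)).subset ?_
  rintro _ ⟨⟨a, rfl⟩, b, hb⟩
  obtain ⟨rfl, h2⟩ := Nat.pair_eq_pair.1 hb
  refine ⟨b, ?_, rfl⟩
  by_contra hb'
  have h3 := Encodable.encode_injective (Nat.pair_eq_pair.1 h2).2
  exact hj (List.map_inj_left.1 h3 j (List.mem_range.2 (not_le.1 hb'))).symm

theorem gr_inj : Function.Injective gr := fun x z h => by
  by_contra hne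
  have := gr_gr hne
  rw [h, inter_self] at this
  exact gr_inf z this

theorem opn {A : Set (Set ℕ)} {V : Set (ℕ ⊕ A)}
    (h : TopologicalSpace.GenerateOpen ({s : Set (ℕ ⊕ A) | ∃ n : ℕ, s = {Sum.inl n}} ∪
         {s : Set (ℕ ⊕ A) | ∃ a : A, ∃ F : Set ℕ, F.Finite ∧
            s = insert (Sum.inr a) (Sum.inl '' ((a : Set ℕ) \ F))}) V) :
    ∀ a : A, Sum.inr a ∈ V → {n | n ∈ a.1 ∧ Sum.inl n ∉ V}.Finite := by
  induction h with
  | basic s hs =>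
    intro a ha
    rcases hs with ⟨n, rfl⟩ | ⟨b, F, hF, rfl⟩
    · simp at ha
    · have : a = b := by simpa using ha
      subst this
      refine hF.subset fun n hn => ?_
      by_contra hn'
      exact hn.2 (Or.inr ⟨n, ⟨hn.1, hn'⟩, rfl⟩)
  | univ => intro a _; simp
  | inter s t _ _ hs ht =>
    intro a ha
    refine ((hs a ha.1).union (ht a ha.2)).subset fun n hn => ?_
    by_cases h1 : Sum.inl n ∈ s
    · exact Or.inr ⟨hn.1, fun h2 => hn.2 ⟨h1, h2⟩⟩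
    · exact Or.inl ⟨hn.1, h1⟩
  | sUnion S _ hS =>
    rintro a ⟨s, hs, ha⟩
    exact (hS s hs a ha).subset fun n hn => ⟨hn.1, fun h => hn.2 ⟨s, hs, h⟩⟩

theorem main :
  ∃ A : Set (Set ℕ),
    (∀ a ∈ A, a.Infinite) ∧ (∀ a ∈ A, ∀ b ∈ A, a ≠ b → (a ∩ b).Finite) ∧
    (∃ D : Set (ℕ → ℕ), (∀ f : ℕ → ℕ, ∃ g ∈ D, ∀ᶠ n in Filter.atTop, f n ≤ g n) ∧
        Cardinal.mk D = Cardinal.mk A) ∧
    (∀ D : Set (ℕ → ℕ), (∀ f : ℕ → ℕ, ∃ g ∈ D, ∀ᶠ n in Filter.atTop, f n ≤ g n) →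
        Cardinal.mk A ≤ Cardinal.mk D) ∧
    ∀ t : TopologicalSpace (ℕ ⊕ A),
      t = TopologicalSpace.generateFrom
        ({s : Set (ℕ ⊕ A) | ∃ n : ℕ, s = {Sum.inl n}} ∪
         {s : Set (ℕ ⊕ A) | ∃ a : A, ∃ F : Set ℕ, F.Finite ∧
            s = insert (Sum.inr a) (Sum.inl '' ((a : Set ℕ) \ F))}) →
      ¬ (∀ U : ℕ → Set (Set (ℕ ⊕ A)),
          (∀ n, (∀ u ∈ U n, @IsOpen _ t u) ∧ ⋃₀ U n = Set.univ) →
          ∀ Dn : Set (ℕ ⊕ A), @Dense _ t Dn →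
          ∃ F : ℕ → Set (ℕ ⊕ A),
            (∀ n, F n ⊆ Dn ∧ ∀ x, ∃ V : Set (ℕ ⊕ A), @IsOpen _ t V ∧ x ∈ V ∧ V ∩ F n ⊆ {x}) ∧
            ∀ x, ∃ n, ∃ u ∈ U n, x ∈ u ∧ (u ∩ F n).Nonempty) := by
  obtain ⟨E, hE, hm⟩ := ex_dom
  have hD : Dom E := fun f => (hE f).imp fun g hg => ⟨hg.1, Eventually.of_forall hg.2⟩
  have hi := (dom_inf hD).to_subtype
  have hc : #E = #(range col ∪ gr '' E : Set (Set ℕ)) := by
    refine le_antisymm ?_ ((mk_union_le _ _).trans ?_)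
    · rw [← mk_image_eq gr_inj]
      exact mk_le_mk_of_subset subset_union_right
    · rw [mk_image_eq gr_inj]
      refine (add_le_add_left (mk_range_le.trans (mk_nat.le.trans (aleph0_le_mk E))) _).trans ?_
      rw [add_eq_self (aleph0_le_mk _)]
  have hinf : ∀ a ∈ (range col ∪ gr '' E : Set (Set ℕ)), a.Infinite := by
    rintro _ (⟨j, rfl⟩ | ⟨x, -, rfl⟩)
    exacts [col_inf j, gr_inf x]
  refine ⟨range col ∪ gr '' E, hinf, ?_, ⟨E, hD, hc⟩, fun D h => hc ▸ hm D h, ?_⟩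
  · rintro _ (⟨j, rfl⟩ | ⟨x, -, rfl⟩) _ (⟨i, rfl⟩ | ⟨z, -, rfl⟩) h
    · exact col_col h
    · exact col_gr _ _
    · rw [inter_comm]; exact col_gr _ _
    · exact gr_gr fun e => h (by rw [e])
  rintro t rfl H
  letI := TopologicalSpace.generateFrom
        ({s : Set (ℕ ⊕ (range col ∪ gr '' E : Set (Set ℕ))) | ∃ n : ℕ, s = {Sum.inl n}} ∪
         {s : Set (ℕ ⊕ (range col ∪ gr '' E : Set (Set ℕ))) |
          ∃ a : (range col ∪ gr '' E : Set (Set ℕ)), ∃ F : Set ℕ, F.Finite ∧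
            s = insert (Sum.inr a) (Sum.inl '' ((a : Set ℕ) \ F))})
  obtain ⟨F, hF, hcov⟩ := H (fun n => {s | ∃ m : ℕ, s = {Sum.inl m}} ∪
      {s | ∃ a : (range col ∪ gr '' E : Set (Set ℕ)), s = insert (Sum.inr a)
        (Sum.inl '' (a.1 \ ((fun k => Nat.pair k (sInf {m | Nat.pair k m ∈ a.1})) '' Iio n)))})
    (fun n => ⟨fun u hu => TopologicalSpace.GenerateOpen.basic _ (hu.imp id fun ⟨a, ha⟩ =>
      ⟨a, _, (finite_Iio n).image _, ha⟩), eq_univ_of_forall fun x => by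
        rcases x with m | a
        · exact ⟨_, Or.inl ⟨m, rfl⟩, rfl⟩
        · exact ⟨_, Or.inr ⟨a, rfl⟩, Or.inl rfl⟩⟩) (range Sum.inl) (by
      refine dense_iff_inter_open.2 fun V hV ⟨x, hx⟩ => ?_
      rcases x with m | a
      · exact ⟨_, hx, m, rfl⟩
      · obtain ⟨m, hm, hm'⟩ := ((hinf a.1 a.2).sdiff (opn hV a hx)).nonempty
        exact ⟨Sum.inl m, by_contra fun h => hm' ⟨hm, h⟩, m, rfl⟩)
  have hb : ∀ n k, ∃ g : ℕ, ∀ m, Sum.inl (Nat.pair k m) ∈ F n → m < g := by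
    intro n k
    obtain ⟨V, hV, hx, hVF⟩ := (hF n).2 (Sum.inr ⟨col k, Or.inl ⟨k, rfl⟩⟩)
    obtain ⟨g, hg⟩ := ((opn hV _ hx).preimage (f := Nat.pair k)
      (fun _ _ _ _ h => (Nat.pair_eq_pair.1 h).2)).bddAbove
    refine ⟨g + 1, fun m hm => Nat.lt_succ_of_le (hg ⟨⟨m, rfl⟩, fun h => ?_⟩)⟩
    simpa using hVF ⟨h, hm⟩
  choose g hg using hb
  obtain ⟨x, hx, hxg⟩ := hE fun k => ∑ n ∈ Finset.range (k + 1), g n k
  obtain ⟨n, u, hu, hxu, y, hyu, hyF⟩ := hcov (Sum.inr ⟨gr x, Or.inr ⟨x, hx, rfl⟩⟩)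
  rcases hu with ⟨m, rfl⟩ | ⟨a, rfl⟩
  · simp at hxu
  have ha : (⟨gr x, Or.inr ⟨x, hx, rfl⟩⟩ : (range col ∪ gr '' E : Set (Set ℕ))) = a := by
    simpa using hxu
  subst ha
  rcases hyu with rfl | ⟨_, ⟨⟨k, rfl⟩, hk⟩, rfl⟩
  · simpa using (hF n).1 hyF
  have hs : {m | Nat.pair k m ∈ gr x} = {yy x k} := by
    ext m
    constructor
    · rintro ⟨b, hb⟩
      obtain ⟨rfl, rfl⟩ := Nat.pair_eq_pair.1 hb
      rfl
    · rintro rfl
      exact ⟨k, rfl⟩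
  have hkn : n ≤ k := by
    by_contra h
    exact hk ⟨k, not_le.1 h, by simp only [hs, csInf_singleton]⟩
  have h1 := hg n k _ hyF
  have h2 := Finset.single_le_sum (f := fun n => g n k) (fun _ _ => Nat.zero_le _)
    (Finset.mem_range.2 (Nat.lt_succ_of_le hkn))
  have h3 := hxg k
  have h4 : x k ≤ yy x k := Nat.left_le_pair _ _
  exact absurd (h1.trans_le (h2.trans (h3.trans h4))) (lt_irrefl _)

end Pool.Agent.H.MP_cc69c8_lc
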